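import Pool.Agent.SAP.MAIN

/-!
# Equitable oblivious regularity partitions for semialgebraic hypergraphs

For all `d, k ≥ 1` there is a constant `C` such that for all `D ≥ 1`, `ε > 0` and all finite sets
`P 0, ..., P (k - 1)` of points of `ℝ^d` there are equitable partitions `Q i` of the sets `P i` into
at most `C * max 1 (D / ε) ^ d` parts, which form a homogeneous partition with error `ε` for every
semialgebraic hypergraph on these vertex sets of total degree at most `D`.

(For `ε ≤ D`, in particular for all `ε ≤ 1`, the bound is `C * (D / ε) ^ d`.)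
-/

set_option autoImplicit false

namespace Pool.Agent.Results.MP_f3d7df_co.EquitableOblivious

open Pool.Agent.SAP

theorem result (d k : ℕ) (hd : 1 ≤ d) (hk : 1 ≤ k) : ∃ C : ℝ, 0 < C ∧
    ∀ (D : ℕ) (ε : ℝ), 1 ≤ D → 0 < ε → ∀ P : Fin k → Finset (Fin d → ℝ),
      ∃ Q : ∀ i, Finpartition (P i), (∀ i, (Q i).IsEquipartition) ∧
        (∀ i, ((Q i).parts.card : ℝ) ≤ C * max 1 (D / ε) ^ d) ∧
        ∀ E : Set (Fin k → Fin d → ℝ), IsSemialgebraic P E D → HomogeneousPartition Q E ε := by
  obtain ⟨C, hC, h⟩ := Pool.Agent.SAP.main d k hd hk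
  refine ⟨C, hC, fun D ε hD hε P => ?_⟩
  have hD' : (1 : ℝ) ≤ D := by exact_mod_cast hD
  obtain ⟨Q, h1, h2, h3⟩ := h D (min ε D) hD (lt_min hε (by linarith)) (min_le_right _ _) P
  refine ⟨Q, h1, fun i => (h2 i).trans (le_of_eq ?_), fun E hE => (h3 E hE).trans (min_le_left _ _)⟩
  congr 2
  rcases le_total ε D with h4 | h4
  · rw [min_eq_left h4, max_eq_right]
    rwa [le_div_iff₀ hε, one_mul]
  · rw [min_eq_right h4, max_eq_left, div_self (by linarith)]
    rwa [div_le_iff₀ hε, one_mul]

end Pool.Agent.Results.MP_f3d7df_co.EquitableOblivious
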